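import Pool.Agent.Helper30.DL.GoalsC

/-!
MP_b4564f_an, all delays: enclosures of the constants, first part (MKA).
-/

set_option autoImplicit false

open Complex (I)

namespace Pool.Agent.Helper16.DL

open Pool.Agent.Helper30.DL

/-- the closure properties of the enclosures -/
structure Ops (x y z : ℝ) : Prop where
  add : ∀ {A B : AF} {v w : ℝ}, A.Enc x y z v → B.Enc x y z w → (A + B).Enc x y z (v + w)
  sub : ∀ {A B : AF} {v w : ℝ}, A.Enc x y z v → B.Enc x y z w → (A - B).Enc x y z (v - w)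
  mul : ∀ {A B : AF} {v w : ℝ}, A.Enc x y z v → B.Enc x y z w → (A * B).Enc x y z (v * w)
  neg : ∀ {A : AF} {v : ℝ}, A.Enc x y z v → (-A).Enc x y z (-v)
  smul : ∀ {A : AF} {v : ℝ} (n : ℕ), A.Enc x y z v → (n • A).Enc x y z (n * v)
  inv : ∀ {A : AF} {v : ℝ}, A.pos = true → A.Enc x y z v → A.inv.Enc x y z v⁻¹

theorem ops (h : AfsStmt) {x y z : ℝ} (hx : |x| ≤ 1) (hy : |y| ≤ 1) (hz : |z| ≤ 1) :
    Ops x y z where
  add := fun {A B v w} h1 h2 => (h x y z hx hy hz A B v w h1 h2).1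
  sub := fun {A B v w} h1 h2 => (h x y z hx hy hz A B v w h1 h2).2.1
  mul := fun {A B v w} h1 h2 => (h x y z hx hy hz A B v w h1 h2).2.2.1
  neg := fun {A v} h1 => (h x y z hx hy hz A A v v h1 h1).2.2.2.1
  smul := fun {A v} n h1 => by
    have h2 := (h x y z hx hy hz A A v v h1 h1).2.2.2.2.1 n
    rwa [nsmul_eq_mul] at h2
  inv := fun {A v} h0 h1 => ((h x y z hx hy hz A A v v h1 h1).2.2.2.2.2.2.2.1 h0).2

theorem cst_enc (x y z : ℝ) (p n r : ℕ) (v : ℝ)
    (h : |10000000000 * v - ((p : ℝ) - n)| ≤ r) : (AF.cst p n r).Enc x y z v := by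
  unfold AF.Enc AF.cst
  simpa using h

theorem one_enc (x y z : ℝ) : AF.one.Enc x y z 1 := by
  unfold AF.Enc AF.one
  norm_num

theorem zer_enc (x y z : ℝ) : AF.zer.Enc x y z 0 := by
  unfold AF.Enc AF.zer
  norm_num

theorem hlf_enc (x y z : ℝ) : hlf.Enc x y z (1 / 2) := by
  refine cst_enc x y z _ _ _ _ ?_
  norm_num

section CA

variable {x y z : ℝ}

theorem Ops.cadd (O : Ops x y z) {A B : CA} {v w : ℂ} (h1 : A.Enc x y z v) (h2 : B.Enc x y z w) :
    (A + B).Enc x y z (v + w) :=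
  ⟨by rw [Complex.add_re]; exact O.add h1.1 h2.1, by rw [Complex.add_im]; exact O.add h1.2 h2.2⟩

theorem Ops.csub (O : Ops x y z) {A B : CA} {v w : ℂ} (h1 : A.Enc x y z v) (h2 : B.Enc x y z w) :
    (A - B).Enc x y z (v - w) :=
  ⟨by rw [Complex.sub_re]; exact O.sub h1.1 h2.1, by rw [Complex.sub_im]; exact O.sub h1.2 h2.2⟩

theorem Ops.cmul (O : Ops x y z) {A B : CA} {v w : ℂ} (h1 : A.Enc x y z v) (h2 : B.Enc x y z w) :
    (A * B).Enc x y z (v * w) :=
  ⟨by rw [Complex.mul_re]; exact O.sub (O.mul h1.1 h2.1) (O.mul h1.2 h2.2),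
    by rw [Complex.mul_im]; exact O.add (O.mul h1.1 h2.2) (O.mul h1.2 h2.1)⟩

theorem Ops.cneg (O : Ops x y z) {A : CA} {v : ℂ} (h1 : A.Enc x y z v) :
    (-A).Enc x y z (-v) :=
  ⟨by rw [Complex.neg_re]; exact O.neg h1.1, by rw [Complex.neg_im]; exact O.neg h1.2⟩

theorem Ops.ccj (O : Ops x y z) {A : CA} {v : ℂ} (h1 : A.Enc x y z v) :
    A.cj.Enc x y z ((starRingEnd ℂ) v) :=
  ⟨by rw [Complex.conj_re]; exact h1.1, by rw [Complex.conj_im]; exact O.neg h1.2⟩

theorem Ops.cscl (O : Ops x y z) {s : AF} {A : CA} {r : ℝ} {v : ℂ} (h0 : s.Enc x y z r)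
    (h1 : A.Enc x y z v) : (CA.scl s A).Enc x y z ((r : ℂ) * v) :=
  ⟨by rw [Complex.re_ofReal_mul]; exact O.mul h0 h1.1,
    by rw [Complex.im_ofReal_mul]; exact O.mul h0 h1.2⟩

theorem Ops.cmulI (O : Ops x y z) {A : CA} {v : ℂ} (h1 : A.Enc x y z v) :
    (CA.mulI A).Enc x y z (I * v) :=
  ⟨by rw [Complex.I_mul_re]; exact O.neg h1.2, by rw [Complex.I_mul_im]; exact h1.1⟩

theorem Ops.cofR (_ : Ops x y z) {s : AF} {r : ℝ} (h0 : s.Enc x y z r) :
    (CA.ofR s).Enc x y z (r : ℂ) :=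
  ⟨by rw [Complex.ofReal_re]; exact h0, by rw [Complex.ofReal_im]; exact zer_enc x y z⟩

theorem Ops.csmul (O : Ops x y z) {A : CA} {v : ℂ} (n : ℕ) (h1 : A.Enc x y z v) :
    (n • A).Enc x y z ((n : ℂ) * v) := by
  refine ⟨?_, ?_⟩
  · have : ((n : ℂ) * v).re = n * v.re := by simp
    rw [this]
    exact O.smul n h1.1
  · have : ((n : ℂ) * v).im = n * v.im := by simp
    rw [this]
    exact O.smul n h1.2

theorem c1_enc (x y z : ℝ) : (⟨AF.one, AF.zer⟩ : CA).Enc x y z 1 :=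
  ⟨by rw [Complex.one_re]; exact one_enc x y z, by rw [Complex.one_im]; exact zer_enc x y z⟩

end CA

/-! ### exponentials -/

theorem ex_def (t : ℝ) (m : ℤ) : ex t m = Complex.exp ((m : ℂ) * (I * t)) := by
  unfold ex
  congr 1
  push_cast
  ring

theorem ex_add (t : ℝ) (m n : ℤ) : ex t (m + n) = ex t m * ex t n := by
  rw [ex_def, ex_def, ex_def, ← Complex.exp_add]
  congr 1
  push_cast
  ring

theorem ex_zero (t : ℝ) : ex t 0 = 1 := by
  rw [ex_def]
  simp

theorem ex_neg (t : ℝ) (m : ℤ) : ex t (-m) = (starRingEnd ℂ) (ex t m) := by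
  rw [ex_def, ex_def, ← Complex.exp_conj]
  congr 1
  simp

theorem ex_one_re (t : ℝ) : (ex t 1).re = Real.cos t := by
  rw [ex_def, show ((1 : ℤ) : ℂ) * (I * t) = t * I by push_cast; ring, Complex.exp_ofReal_mul_I_re]

theorem ex_one_im (t : ℝ) : (ex t 1).im = Real.sin t := by
  rw [ex_def, show ((1 : ℤ) : ℂ) * (I * t) = t * I by push_cast; ring, Complex.exp_ofReal_mul_I_im]

/-! ### sines of multiples -/

theorem sin3 (t : ℝ) : Real.sin (3 * t) = Real.sin t * (4 * Real.cos t ^ 2 - 1) := by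
  have h : Real.cos t ^ 2 = 1 - Real.sin t ^ 2 := by
    have := Real.sin_sq_add_cos_sq t
    linarith
  rw [Real.sin_three_mul, h]
  ring

theorem sin4 (t : ℝ) : Real.sin (4 * t) =
    4 * (Real.sin t * (Real.cos t * (2 * Real.cos t ^ 2 - 1))) := by
  rw [show 4 * t = 2 * (2 * t) by ring, Real.sin_two_mul, Real.sin_two_mul, Real.cos_two_mul]
  ring

theorem sin5 (t : ℝ) : Real.sin (5 * t) =
    Real.sin t * (16 * Real.cos t ^ 4 - 12 * Real.cos t ^ 2 + 1) := by
  have h := Real.sin_sq_add_cos_sq t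
  have hs : Real.sin t ^ 2 = 1 - Real.cos t ^ 2 := by linarith
  rw [show 5 * t = 4 * t + t by ring, Real.sin_add, sin4,
    show 4 * t = 2 * (2 * t) by ring, Real.cos_two_mul, Real.cos_two_mul]
  ring

section main

variable {x y z t : ℝ} {b : BsA} {Q : PmA} {P : Pm}

theorem th_enc (O : Ops x y z) (hb : EncBs b x y z t) : b.th.Enc x y z (th t) := by
  have h := O.smul 2 hb.tt
  have e : th t = ((2 : ℕ) : ℝ) * t := by unfold th; push_cast; ring
  rw [e]
  exact h

theorem ph_enc (hb : EncBs b x y z t) : b.f.Enc x y z (ph t) := hb.f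

theorem sin_enc (O : Ops x y z) (ht : 0 < t) (hb : EncBs b x y z t) :
    (b.t * b.f).Enc x y z (Real.sin t) := by
  have h := O.mul hb.tt hb.f
  have e : Real.sin t = t * (Real.sin t / t) := by field_simp
  rw [e]
  exact h

theorem pp_enc (O : Ops x y z) (ht : 0 < t) (hb : EncBs b x y z t) :
    b.pp.Enc x y z (pp t) := by
  have h := O.smul 2 (sin_enc O ht hb)
  have e : pp t = ((2 : ℕ) : ℝ) * Real.sin t := by unfold pp; push_cast; ring
  rw [e]
  exact h

theorem del_enc (O : Ops x y z) (hb : EncBs b x y z t) : b.del.Enc x y z (del t) :=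
  O.mul hb.Q hb.f

theorem kt_enc (O : Ops x y z) (hb : EncBs b x y z t) : b.kt.Enc x y z (kt t) :=
  O.sub hb.Q hb.tt

theorem g2h_enc (O : Ops x y z) (ht : 0 < t) (hb : EncBs b x y z t) :
    b.g2h.Enc x y z (g2h t) := by
  have h := O.mul (O.mul hb.f (O.sub (one_enc x y z) (pp_enc O ht hb))) (hlf_enc x y z)
  have e : g2h t = Real.sin t / t * (1 - pp t) * (1 / 2) := by
    unfold g2h ph
    ring
  rw [e]
  exact h

theorem hp_enc (O : Ops x y z) (ht : 0 < t) (hb : EncBs b x y z t) :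
    b.hp.Enc x y z (hp t) := by
  have h := O.mul (O.sub (one_enc x y z) (pp_enc O ht hb)) (hlf_enc x y z)
  have e : hp t = (1 - pp t) * (1 / 2) := by
    unfold hp
    ring
  rw [e]
  exact h

/-! exponentials -/

theorem e1_enc (O : Ops x y z) (ht : 0 < t) (hb : EncBs b x y z t) :
    b.e1.Enc x y z (ex t 1) :=
  ⟨by rw [ex_one_re]; exact hb.c, by rw [ex_one_im]; exact sin_enc O ht hb⟩

theorem e2_enc (O : Ops x y z) (ht : 0 < t) (hb : EncBs b x y z t) :
    b.e2.Enc x y z (ex t 2) := by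
  rw [show (2 : ℤ) = 1 + 1 by norm_num, ex_add]
  exact O.cmul (e1_enc O ht hb) (e1_enc O ht hb)

theorem e3_enc (O : Ops x y z) (ht : 0 < t) (hb : EncBs b x y z t) :
    b.e3.Enc x y z (ex t 3) := by
  rw [show (3 : ℤ) = 2 + 1 by norm_num, ex_add]
  exact O.cmul (e2_enc O ht hb) (e1_enc O ht hb)

theorem e4_enc (O : Ops x y z) (ht : 0 < t) (hb : EncBs b x y z t) :
    b.e4.Enc x y z (ex t 4) := by
  rw [show (4 : ℤ) = 2 + 2 by norm_num, ex_add]
  exact O.cmul (e2_enc O ht hb) (e2_enc O ht hb)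

theorem e5_enc (O : Ops x y z) (ht : 0 < t) (hb : EncBs b x y z t) :
    b.e5.Enc x y z (ex t 5) := by
  rw [show (5 : ℤ) = 4 + 1 by norm_num, ex_add]
  exact O.cmul (e4_enc O ht hb) (e1_enc O ht hb)

theorem e8_enc (O : Ops x y z) (ht : 0 < t) (hb : EncBs b x y z t) :
    b.e8.Enc x y z (ex t 8) := by
  rw [show (8 : ℤ) = 4 + 4 by norm_num, ex_add]
  exact O.cmul (e4_enc O ht hb) (e4_enc O ht hb)

theorem exn_enc (O : Ops x y z) (ht : 0 < t) (hb : EncBs b x y z t) (m : ℕ)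
    (hm : m ≤ 5 ∨ m = 8) : (b.exn m).Enc x y z (ex t m) := by
  have h0 : (b.exn 0).Enc x y z (ex t (0 : ℕ)) := by
    rw [Nat.cast_zero, ex_zero]
    exact c1_enc x y z
  rcases hm with hm | hm
  · interval_cases m
    · exact h0
    · exact e1_enc O ht hb
    · exact e2_enc O ht hb
    · exact e3_enc O ht hb
    · exact e4_enc O ht hb
    · exact e5_enc O ht hb
  · subst hm
    exact e8_enc O ht hb

theorem exm_enc (O : Ops x y z) (ht : 0 < t) (hb : EncBs b x y z t) (m : ℕ)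
    (hm : m ≤ 5 ∨ m = 8) : (b.exn m).cj.Enc x y z (ex t (-m)) := by
  rw [ex_neg]
  exact O.ccj (exn_enc O ht hb m hm)

/-! `sc`, `js` -/

theorem sc_enc (O : Ops x y z) (ht : 0 < t) (hb : EncBs b x y z t) (m : ℕ)
    (h1 : 1 ≤ m) (h5 : m ≤ 5) : (b.sc m).Enc x y z (sc t m) := by
  have c2 := O.mul hb.c hb.c
  interval_cases m
  · have e : sc t 1 = Real.sin t / t := by unfold sc; norm_num
    rw [e]
    exact hb.f
  · have e : sc t 2 = Real.sin t / t * Real.cos t := by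
      unfold sc
      push_cast
      rw [Real.sin_two_mul]
      field_simp
    rw [e]
    exact O.mul hb.f hb.c
  · have e : sc t 3 = Real.sin t / t *
        ((((4 : ℕ) : ℝ) * (Real.cos t * Real.cos t) - 1) * (1 / 3)) := by
      unfold sc
      push_cast
      rw [sin3]
      field_simp
    rw [e]
    refine O.mul hb.f (O.mul (O.sub (O.smul 4 c2) (one_enc x y z)) ?_)
    refine cst_enc x y z _ _ _ _ ?_
    rw [abs_le]
    constructor <;> norm_num
  · have e : sc t 4 = Real.sin t / t *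
        (Real.cos t * (((2 : ℕ) : ℝ) * (Real.cos t * Real.cos t) - 1)) := by
      unfold sc
      push_cast
      rw [sin4]
      field_simp
    rw [e]
    exact O.mul hb.f (O.mul hb.c (O.sub (O.smul 2 c2) (one_enc x y z)))
  · have e : sc t 5 = Real.sin t / t *
        ((((16 : ℕ) : ℝ) * (Real.cos t * Real.cos t * (Real.cos t * Real.cos t))
          - ((12 : ℕ) : ℝ) * (Real.cos t * Real.cos t) + 1) * (1 / 5)) := by
      unfold sc
      push_cast
      rw [sin5]
      field_simp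
    rw [e]
    refine O.mul hb.f (O.mul (O.add (O.sub (O.smul 16 (O.mul c2 c2)) (O.smul 12 c2))
      (one_enc x y z)) ?_)
    refine cst_enc x y z _ _ _ _ ?_
    norm_num

theorem js_enc (O : Ops x y z) (ht : 0 < t) (hb : EncBs b x y z t) (hok : okA Q b = true) (m : ℕ)
    (h1 : 1 ≤ m) (h5 : m ≤ 4) : (b.js m).Enc x y z (js t m) := by
  have e : js t m = (sc t m)⁻¹ := by
    unfold js sc
    rw [inv_div]
  have hp : AF.pos (b.sc m) = true := by
    simp only [okA, Bool.and_eq_true] at hok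
    obtain ⟨⟨⟨⟨⟨⟨⟨a1, a2⟩, a3⟩, a4⟩, a5⟩, a6⟩, a7⟩, a8⟩ := hok
    interval_cases m
    · exact a1
    · exact a2
    · exact a3
    · exact a4
  rw [e]
  exact O.inv hp (sc_enc O ht hb m h1 (by omega))

theorem om_enc (O : Ops x y z) (hb : EncBs b x y z t) : b.om.Enc x y z (om t) := by
  refine ⟨?_, ?_⟩
  · have e : (om t).re = -(del t * (1 / 2)) := by
      show -(del t) / 2 = _
      ring
    rw [e]
    exact O.neg (O.mul (del_enc O hb) (hlf_enc x y z))
  · have e : (om t).im = Real.cos t * (1 / 2) := by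
      show cs t / 2 = _
      unfold cs
      ring
    rw [e]
    exact O.mul hb.c (hlf_enc x y z)

theorem ik_enc (O : Ops x y z) (ht : 0 < t) (hb : EncBs b x y z t) :
    b.ik.Enc x y z (ik t) :=
  O.cmul (om_enc O hb) (exm_enc O ht hb 2 (Or.inl (by norm_num)))

theorem E2_enc (O : Ops x y z) (hb : EncBs b x y z t) :
    b.E2.Enc x y z (cs t ^ 2 + del t ^ 2) := by
  rw [sq, sq]
  exact O.add (O.mul hb.c hb.c) (O.mul (del_enc O hb) (del_enc O hb))

theorem iE_enc (O : Ops x y z) (hb : EncBs b x y z t) (hok : okA Q b = true) :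
    b.iE.Enc x y z (iE t) := by
  simp only [okA, Bool.and_eq_true] at hok
  obtain ⟨⟨⟨⟨⟨⟨⟨a1, a2⟩, a3⟩, a4⟩, a5⟩, a6⟩, a7⟩, a8⟩ := hok
  exact O.inv a5 (E2_enc O hb)

theorem kap_enc (O : Ops x y z) (ht : 0 < t) (hb : EncBs b x y z t) (hok : okA Q b = true) :
    b.kap.Enc x y z (kap t) := by
  have hi := iE_enc O hb hok
  have h1 := O.neg (O.smul 2 (O.mul hi (del_enc O hb)))
  have h2 := O.neg (O.smul 2 (O.mul hi hb.c))
  push_cast at h1 h2
  exact O.cmul ⟨h1, h2⟩ (e2_enc O ht hb)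

theorem kn_enc (O : Ops x y z) (hb : EncBs b x y z t) (hok : okA Q b = true) :
    b.kn.Enc x y z (kn t) := by
  have h1 := O.smul 4 (iE_enc O hb hok)
  push_cast at h1
  exact h1

theorem mu_enc (O : Ops x y z) (ht : 0 < t) (hb : EncBs b x y z t) :
    b.mu.Enc x y z (mu t) := exm_enc O ht hb 4 (Or.inl (by norm_num))

theorem lam_enc (O : Ops x y z) (ht : 0 < t) (hb : EncBs b x y z t) :
    b.lam.Enc x y z (lam t) := e2_enc O ht hb

theorem muk_enc (O : Ops x y z) (ht : 0 < t) (hb : EncBs b x y z t) :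
    b.muk.Enc x y z (muk t) := O.cneg (lam_enc O ht hb)

theorem lk_enc (O : Ops x y z) (ht : 0 < t) (hb : EncBs b x y z t) :
    b.lk.Enc x y z (lk t) := O.cmulI (exm_enc O ht hb 1 (Or.inl (by norm_num)))

theorem invm_enc (x y z : ℝ) (m : ℕ) (h1 : 1 ≤ m) (h4 : m ≤ 4) :
    (BsA.invm m).Enc x y z (1 / m) := by
  interval_cases m
  · have e : (1 : ℝ) / ((1 : ℕ) : ℝ) = 1 := by norm_num
    rw [e]
    exact one_enc x y z
  · refine cst_enc x y z _ _ _ _ ?_
    norm_num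
  · refine cst_enc x y z _ _ _ _ ?_
    rw [abs_le]
    constructor <;> norm_num
  · refine cst_enc x y z _ _ _ _ ?_
    norm_num

theorem Dm_enc (O : Ops x y z) (ht : 0 < t) (hb : EncBs b x y z t) (hok : okA Q b = true) (m : ℕ)
    (h1 : 1 ≤ m) (h4 : m ≤ 4) : (b.Dm m).Enc x y z (Dm t m) := by
  have h := O.cscl (O.mul (js_enc O ht hb hok m h1 h4) (invm_enc x y z m h1 h4))
    (O.cmulI (exm_enc O ht hb m (Or.inl (by omega))))
  have e : Dm t m = ((js t m * (1 / m) : ℝ) : ℂ) * (I * ex t (-m)) := by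
    unfold Dm
    rw [← mul_assoc]
    congr 1
    apply Complex.ext
    · rw [Complex.re_ofReal_mul, Complex.I_re, mul_zero]
    · rw [Complex.im_ofReal_mul, Complex.I_im]
      show js t m / m = _
      ring
  rw [e]
  exact h

theorem dl_enc (O : Ops x y z) (ht : 0 < t) (hb : EncBs b x y z t) (m : ℕ)
    (h1 : 1 ≤ m) (h4 : m ≤ 5) : (b.dl m).Enc x y z (dl t m) := by
  have h := O.cneg (O.cscl (O.smul m (sc_enc O ht hb m h1 h4))
    (O.cmulI (exn_enc O ht hb m (Or.inl (by omega)))))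
  have e : dl t m = -(((m * sc t m : ℝ) : ℂ) * (I * ex t m)) := by
    have key : (⟨0, -(m * sc t m)⟩ : ℂ) = -(((m * sc t m : ℝ) : ℂ) * I) := by
      apply Complex.ext
      · rw [Complex.neg_re, Complex.re_ofReal_mul, Complex.I_re, mul_zero, neg_zero]
      · rw [Complex.neg_im, Complex.im_ofReal_mul, Complex.I_im, mul_one]
    unfold dl
    rw [key]
    ring
  rw [e]
  exact h

theorem chh_enc (O : Ops x y z) (hb : EncBs b x y z t) : b.chh.Enc x y z (chh t) := by
  have h2 := O.smul 2 (O.mul hb.f hb.c)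
  push_cast at h2
  exact ⟨hb.f, h2⟩

theorem kk_enc (O : Ops x y z) (ht : 0 < t) (hb : EncBs b x y z t) (hok : okA Q b = true) :
    b.kk.Enc x y z (kap t ^ 2) := by
  rw [sq]
  exact O.cmul (kap_enc O ht hb hok) (kap_enc O ht hb hok)

theorem Aic_enc (O : Ops x y z) (hb : EncBs b x y z t) (hP : EncP Q P) :
    (b.Aic Q).Enc x y z (Aic P t) := ⟨hP.aa x y z, O.neg hb.c⟩

theorem al_enc (O : Ops x y z) (ht : 0 < t) (hb : EncBs b x y z t) (hP : EncP Q P)
    (hok : okA Q b = true) : (b.al Q).Enc x y z (al P t) := by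
  have hq : AF.pos b.q14 = true := by
    simp only [okA, Bool.and_eq_true] at hok
    obtain ⟨⟨⟨⟨⟨⟨⟨a1, a2⟩, a3⟩, a4⟩, a5⟩, a6⟩, a7⟩, a8⟩ := hok
    exact a6
  have h14 : b.q14.Enc x y z (1 + 4 * cs t ^ 2) := by
    have h := O.add (one_enc x y z) (O.smul 4 (O.mul hb.c hb.c))
    push_cast at h
    rw [sq]
    exact h
  have hc : (⟨AF.one, -(2 • b.c)⟩ : CA).Enc x y z ⟨1, -(2 * cs t)⟩ := by
    have h := O.neg (O.smul 2 hb.c)
    push_cast at h
    exact ⟨one_enc x y z, h⟩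
  have hk := O.cmul (kap_enc O ht hb hok) (kap_enc O ht hb hok)
  exact O.cscl (O.mul (hp_enc O ht hb) (O.inv hq h14))
    (O.cmul (O.cmul (O.cmul (Aic_enc O hb hP) hk)
      (exm_enc O ht hb 4 (Or.inl (by norm_num)))) hc)

theorem be_enc (O : Ops x y z) (ht : 0 < t) (hb : EncBs b x y z t) (hP : EncP Q P)
    (hok : okA Q b = true) : (b.be Q).Enc x y z (be P t) :=
  O.mul (hp_enc O ht hb) (O.mul (hP.aa x y z) (kn_enc O hb hok))

theorem c30_enc (O : Ops x y z) (ht : 0 < t) (hb : EncBs b x y z t) (hP : EncP Q P)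
    (hok : okA Q b = true) : (b.c30 Q).Enc x y z (c30 P t) := by
  have hk := O.cmul (kap_enc O ht hb hok) (kap_enc O ht hb hok)
  have h := O.cscl (O.neg (O.mul (g2h_enc O ht hb) (hlf_enc x y z)))
    (O.cmul (O.cmul (Dm_enc O ht hb hok 3 (by norm_num) (by norm_num)) hk)
      (O.cadd (lam_enc O ht hb) (O.cmul (Aic_enc O hb hP) (kap_enc O ht hb hok))))
  have e : -(g2h t / 2) = -(g2h t * (1 / 2)) := by ring
  unfold c30
  rw [e]
  exact h

theorem c21_enc (O : Ops x y z) (ht : 0 < t) (hb : EncBs b x y z t) (hP : EncP Q P)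
    (hok : okA Q b = true) : (b.c21 Q).Enc x y z (c21 P t) := by
  have hk := O.cmul (kap_enc O ht hb hok) (kap_enc O ht hb hok)
  have h3 := O.smul 3 (hP.aa x y z)
  push_cast at h3
  have hA : (⟨3 • Q.A, -b.c⟩ : CA).Enc x y z ⟨3 * P.A, -cs t⟩ := ⟨h3, O.neg hb.c⟩
  exact O.cscl (O.neg (g2h_enc O ht hb))
    (O.cmul (Dm_enc O ht hb hok 1 (by norm_num) (by norm_num))
      (O.cadd (O.cscl (hlf_enc x y z) (O.cmul hk (exm_enc O ht hb 2 (Or.inl (by norm_num)))))
        (O.cscl (kn_enc O hb hok) (O.cadd (lam_enc O ht hb)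
          (O.cscl (hlf_enc x y z) (O.cmul (kap_enc O ht hb hok) hA))))))

/-! sums -/

theorem iPow_enc (O : Ops x y z) {A : CA} {v : ℂ} (h : A.Enc x y z v) (m : ℕ)
    (h1 : 1 ≤ m) (h4 : m ≤ 4) : (BsA.iPow A m).Enc x y z (I ^ m * v) := by
  interval_cases m
  · rw [pow_one]
    exact O.cmulI h
  · have e : I ^ 2 * v = -v := by rw [Complex.I_sq]; ring
    rw [e]
    exact O.cneg h
  · have e : I ^ 3 * v = -(I * v) := by
      rw [show (3 : ℕ) = 2 + 1 by norm_num, pow_succ, Complex.I_sq]; ring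
    rw [e]
    exact O.cneg (O.cmulI h)
  · have e : I ^ 4 * v = v := by
      rw [Complex.I_pow_four]; ring
    rw [e]
    exact h

theorem Sg_enc (O : Ops x y z) (ht : 0 < t) (hb : EncBs b x y z t) (hok : okA Q b = true) (m : ℕ)
    (h1 : 1 ≤ m) (h4 : m ≤ 4) : (b.Sg m).Enc x y z (Sg t m) :=
  O.cmul (Dm_enc O ht hb hok m h1 h4) (O.csub (c1_enc x y z)
    (iPow_enc O (exm_enc O ht hb m (Or.inl (by omega))) m h1 h4))

theorem Lg_enc (O : Ops x y z) (ht : 0 < t) (hb : EncBs b x y z t) (hok : okA Q b = true) (m : ℕ)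
    (h1 : 1 ≤ m) (h4 : m ≤ 4) : (b.Lg m).Enc x y z (Lg t m) :=
  O.cmul (O.csub (O.cofR (kt_enc O hb)) (Sg_enc O ht hb hok m h1 h4))
    (Dm_enc O ht hb hok m h1 h4)

theorem Mg_enc (O : Ops x y z) (ht : 0 < t) (hb : EncBs b x y z t) (hok : okA Q b = true) (m : ℕ)
    (h1 : 1 ≤ m) (h4 : m ≤ 4) : (b.Mg m).Enc x y z (Mg t m) := by
  have h := O.cmul (O.csub (O.csub (O.cofR (O.mul (kt_enc O hb) (kt_enc O hb)))
    (O.csmul 2 (Lg_enc O ht hb hok m h1 h4)))
    (O.cscl (th_enc O hb) (Sg_enc O ht hb hok m h1 h4)))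
    (Dm_enc O ht hb hok m h1 h4)
  have e : Mg t m = (((kt t * kt t : ℝ) : ℂ) - ((2 : ℕ) : ℂ) * Lg t m - (th t : ℂ) * Sg t m)
      * Dm t m := by
    unfold Mg
    push_cast
    ring
  rw [e]
  exact h

theorem L0_enc (O : Ops x y z) (hb : EncBs b x y z t) : b.L0.Enc x y z (L0 t) := by
  have h := O.mul (O.mul (kt_enc O hb) (O.sub (kt_enc O hb) (th_enc O hb))) (hlf_enc x y z)
  have e : L0 t = kt t * (kt t - th t) * (1 / 2) := by unfold L0; ring
  rw [e]
  exact h

theorem M0_enc (O : Ops x y z) (hb : EncBs b x y z t) : b.M0.Enc x y z (M0 t) := by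
  have hk := kt_enc O hb
  have ht' := th_enc O hb
  have h6 : (AF.cst 1666666667 0 1).Enc x y z (1 / 6) := by
    refine cst_enc x y z _ _ _ _ ?_
    rw [abs_le]
    constructor <;> norm_num
  have h := O.mul (O.mul (O.mul (O.sub hk ht') hk) (O.sub (O.smul 2 hk) ht')) h6
  have e : M0 t = (kt t - th t) * kt t * (((2 : ℕ) : ℝ) * kt t - th t) * (1 / 6) := by
    unfold M0
    push_cast
    ring
  rw [e]
  exact h

theorem Gg_enc (O : Ops x y z) (ht : 0 < t) (hb : EncBs b x y z t) (hok : okA Q b = true) (f : ℕ)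
    (hf : f ≤ 2) (m : ℤ) (h1 : -4 ≤ m) (h4 : m ≤ 4) : (b.Gg f m).Enc x y z (Gg t f m) := by
  have hS := Sg_enc O ht hb hok
  have hL := Lg_enc O ht hb hok
  have hM := Mg_enc O ht hb hok
  have a0 := O.cofR (kt_enc O hb)
  have a1 := O.cofR (L0_enc O hb)
  have a2 := O.cofR (M0_enc O hb)
  interval_cases f <;> interval_cases m
  · exact O.ccj (hS 4 (by norm_num) (by norm_num))
  · exact O.ccj (hS 3 (by norm_num) (by norm_num))
  · exact O.ccj (hS 2 (by norm_num) (by norm_num))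
  · exact O.ccj (hS 1 (by norm_num) (by norm_num))
  · exact a0
  · exact hS 1 (by norm_num) (by norm_num)
  · exact hS 2 (by norm_num) (by norm_num)
  · exact hS 3 (by norm_num) (by norm_num)
  · exact hS 4 (by norm_num) (by norm_num)
  · exact O.ccj (hL 4 (by norm_num) (by norm_num))
  · exact O.ccj (hL 3 (by norm_num) (by norm_num))
  · exact O.ccj (hL 2 (by norm_num) (by norm_num))
  · exact O.ccj (hL 1 (by norm_num) (by norm_num))
  · exact a1
  · exact hL 1 (by norm_num) (by norm_num)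
  · exact hL 2 (by norm_num) (by norm_num)
  · exact hL 3 (by norm_num) (by norm_num)
  · exact hL 4 (by norm_num) (by norm_num)
  · exact O.ccj (hM 4 (by norm_num) (by norm_num))
  · exact O.ccj (hM 3 (by norm_num) (by norm_num))
  · exact O.ccj (hM 2 (by norm_num) (by norm_num))
  · exact O.ccj (hM 1 (by norm_num) (by norm_num))
  · exact a2
  · exact hM 1 (by norm_num) (by norm_num)
  · exact hM 2 (by norm_num) (by norm_num)
  · exact hM 3 (by norm_num) (by norm_num)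
  · exact hM 4 (by norm_num) (by norm_num)

theorem kl_enc (O : Ops x y z) (ht : 0 < t) (hb : EncBs b x y z t) (hok : okA Q b = true) :
    b.kl.Enc x y z (kl t) :=
  O.cmul (kap_enc O ht hb hok) (exm_enc O ht hb 2 (Or.inl (by norm_num)))

theorem k0_enc (O : Ops x y z) (ht : 0 < t) (hb : EncBs b x y z t) (hok : okA Q b = true) :
    b.k0.Enc x y z (k0 t) :=
  O.add (one_enc x y z) (O.mul (pp_enc O ht hb) (kl_enc O ht hb hok).1)

theorem am_enc (O : Ops x y z) (ht : 0 < t) (hb : EncBs b x y z t) (hP : EncP Q P)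
    (hok : okA Q b = true) : (b.am Q).Enc x y z (am P t) :=
  O.cmul (al_enc O ht hb hP hok) (mu_enc O ht hb)

theorem t11_enc (O : Ops x y z) (hb : EncBs b x y z t) : b.t11.Enc x y z (t11 t) := by
  have h := O.smul 2 (om_enc O hb).1
  push_cast at h
  exact h

theorem t12_enc (O : Ops x y z) (hb : EncBs b x y z t) : b.t12.Enc x y z (t12 t) := by
  have h := O.neg (O.smul 2 (om_enc O hb).2)
  push_cast at h
  exact h

theorem w1_enc (O : Ops x y z) (ht : 0 < t) (hb : EncBs b x y z t) (hok : okA Q b = true) :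
    b.w1.Enc x y z (w1 t) :=
  O.cscl (hlf_enc x y z) (O.cmul (O.cmul (chh_enc O hb) (e4_enc O ht hb))
    (Dm_enc O ht hb hok 3 (by norm_num) (by norm_num)))

theorem w2_enc (O : Ops x y z) (ht : 0 < t) (hb : EncBs b x y z t) (hok : okA Q b = true) :
    b.w2.Enc x y z (w2 t) :=
  O.cscl (hlf_enc x y z) (O.cmul (O.cmul (chh_enc O hb) (e4_enc O ht hb))
    (Dm_enc O ht hb hok 1 (by norm_num) (by norm_num)))

theorem on_enc (O : Ops x y z) (hb : EncBs b x y z t) : b.on.Enc x y z (on t) := by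
  have h4 : (AF.cst 2500000000 0 0).Enc x y z (1 / 4) := by
    refine cst_enc x y z _ _ _ _ ?_
    norm_num
  have h := O.mul (E2_enc O hb) h4
  have e : on t = (cs t ^ 2 + del t ^ 2) * (1 / 4) := by unfold on; ring
  rw [e]
  exact h

end main

/-- MKA. -/
theorem mka (hA : AfsStmt) : MkaStmt := by
  intro x y z hx hy hz b t Q P ht _ hb hP hok
  have O := ops hA hx hy hz
  have hom := om_enc O hb
  have hik := ik_enc O ht hb
  have o2 : b.o2.Enc x y z (om t ^ 2) := by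
    rw [sq]; exact O.cmul hom hom
  have k2 : b.k2.Enc x y z (ik t ^ 2) := by
    rw [sq]; exact O.cmul hik hik
  refine ⟨th_enc O hb, pp_enc O ht hb, del_enc O hb, kt_enc O hb, g2h_enc O ht hb,
    exn_enc O ht hb, exm_enc O ht hb, sc_enc O ht hb, js_enc O ht hb hok, hom, hik,
    iE_enc O hb hok, kap_enc O ht hb hok, kn_enc O hb hok, mu_enc O ht hb, muk_enc O ht hb,
    lk_enc O ht hb, lam_enc O ht hb, Dm_enc O ht hb hok, dl_enc O ht hb, chh_enc O hb,
    kk_enc O ht hb hok, al_enc O ht hb hP hok, be_enc O ht hb hP hok, c30_enc O ht hb hP hok,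
    c21_enc O ht hb hP hok, fun m h1 h4 => ⟨Sg_enc O ht hb hok m h1 h4,
      Lg_enc O ht hb hok m h1 h4, Mg_enc O ht hb hok m h1 h4⟩, L0_enc O hb, M0_enc O hb,
    Gg_enc O ht hb hok, kl_enc O ht hb hok, k0_enc O ht hb hok, am_enc O ht hb hP hok,
    t11_enc O hb, t12_enc O hb, w1_enc O ht hb hok, w2_enc O ht hb hok, on_enc O hb, o2,
    ?_, k2, ?_, ?_⟩
  · rw [pow_succ]
    exact O.cmul o2 hom
  · rw [pow_succ]
    exact O.cmul k2 hik
  · rw [show (4 : ℕ) = 2 + 2 by norm_num, pow_add]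
    exact O.cmul k2 k2

end Pool.Agent.Helper16.DL
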